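import Mathlib

set_option autoImplicit false

namespace Pool.Agent.Results.MP_a02313_nt.Upper

open Finset Filter Topology

noncomputable def xx (j : ℕ) : ℕ := 4 * ⌈((4 / 3 : ℝ) ^ j) ^ 2⌉₊ + 2 * (j % 2)

noncomputable def MM (j : ℕ) : ℕ := ⌊2 * 1.46987 * (4 / 3 : ℝ) ^ j⌋₊ + 3

noncomputable def BB (j : ℕ) : Finset ℕ := (range (MM j)).image fun i => xx j + 4 * i

def AA : Set ℕ := {a | a < 10 ∨ ∃ j, a ∈ BB j}

theorem xx_ge (j : ℕ) : 4 * ((4 / 3 : ℝ) ^ j) ^ 2 ≤ xx j := by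
  have := Nat.le_ceil (((4 / 3 : ℝ) ^ j) ^ 2)
  unfold xx
  push_cast
  have : (0 : ℝ) ≤ ((j % 2 : ℕ) : ℝ) := by positivity
  linarith

theorem xx_gt (j : ℕ) : j < xx j := by
  have h1 := xx_ge j
  have h2 := one_add_mul_le_pow (a := (1 / 3 : ℝ)) (by norm_num) j
  have h3 : (j : ℝ) < xx j := by
    have : (0 : ℝ) ≤ j := by positivity
    norm_num at h2
    nlinarith
  exact_mod_cast h3

theorem cover (k : ℕ) : ∃ a ∈ AA, ∃ n : ℕ, k = a + n ^ 2 := by
  classical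
  by_cases hk : k < 10
  · exact ⟨k, Or.inl hk, 0, by simp⟩
  set e := k / 2 % 2 with he
  have hex : ∃ m, k < xx (2 * m + e + 2) := ⟨k, by have := xx_gt (2 * k + e + 2); omega⟩
  set j := 2 * Nat.find hex + e with hj
  have h1 : k < xx (j + 2) := Nat.find_spec hex
  have h2 : xx j ≤ k := by
    rcases Nat.eq_zero_or_pos (Nat.find hex) with h0 | h0
    · have x0 : xx 0 = 4 := by simp [xx]
      have x1 : xx 1 = 10 := by
        have : ⌈((4 / 3 : ℝ) ^ 1) ^ 2⌉₊ = 2 := by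
          rw [Nat.ceil_eq_iff (by norm_num)]; norm_num
        simp only [xx, this]
      have : e = 0 ∨ e = 1 := by omega
      rw [hj, h0]
      rcases this with h | h <;> rw [h] <;> simp only [mul_zero, zero_add] <;> omega
    · have := Nat.find_min hex (m := Nat.find hex - 1) (by omega)
      rw [show 2 * (Nat.find hex - 1) + e + 2 = j by omega] at this
      omega
  obtain ⟨d, hd⟩ := Nat.exists_eq_add_of_le h2
  have hmod : d % 4 = k % 2 := by
    have : xx j % 4 = 2 * e := by unfold xx; omega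
    omega
  have hn : ∃ n : ℕ, n ^ 2 ≤ d ∧ d < (n + 2) ^ 2 ∧ n % 2 = k % 2 := by
    have a1 := Nat.sqrt_le' d
    have a2 := Nat.lt_succ_sqrt' d
    by_cases hp : d.sqrt % 2 = k % 2
    · exact ⟨d.sqrt, a1, by nlinarith, hp⟩
    · have h0 : d.sqrt ≠ 0 := by
        intro h; rw [Nat.sqrt_eq_zero] at h; rw [h] at hp hmod; simp at hp; omega
      obtain ⟨s, hs⟩ := Nat.exists_eq_succ_of_ne_zero h0
      rw [hs] at a1 a2 hp
      exact ⟨s, by nlinarith, a2, by omega⟩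
  obtain ⟨n, hn1, hn2, hn3⟩ := hn
  have hsq : n ^ 2 % 4 = k % 2 := by
    obtain ⟨m, rfl | rfl⟩ := Nat.even_or_odd' n
    · rw [show (2 * m) ^ 2 = 4 * m ^ 2 by ring]; omega
    · rw [show (2 * m + 1) ^ 2 = 4 * (m ^ 2 + m) + 1 by ring]; omega
  have hn4 : (n + 2) ^ 2 = n ^ 2 + 4 * n + 4 := by ring
  refine ⟨xx j + 4 * ((d - n ^ 2) / 4), Or.inr ⟨j, mem_image.2 ⟨_, mem_range.2 ?_, rfl⟩⟩, n, by omega⟩
  have h5 : n < MM j := by
    have a1 : (n : ℝ) ^ 2 + xx j ≤ xx (j + 2) := by exact_mod_cast (by omega : n ^ 2 + xx j ≤ _)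
    have a2 := Nat.le_ceil (((4 / 3 : ℝ) ^ j) ^ 2)
    have a3 := Nat.ceil_lt_add_one (a := ((4 / 3 : ℝ) ^ (j + 2)) ^ 2) (by positivity)
    unfold xx at a1
    rw [show (j + 2) % 2 = j % 2 by omega] at a1
    push_cast at a1
    rw [pow_add (4 / 3 : ℝ) j 2] at a1 a3
    have a4 : (0 : ℝ) < (4 / 3 : ℝ) ^ j := by positivity
    have a5 := Nat.lt_floor_add_one (2 * 1.46987 * (4 / 3 : ℝ) ^ j)
    have a6 : (n : ℝ) ≤ 2 * 1.46987 * (4 / 3 : ℝ) ^ j + 2 := by
      refine le_of_sq_le_sq ?_ (by positivity)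
      generalize (4 / 3 : ℝ) ^ j = t at *
      nlinarith
    have a7 : (n : ℝ) < MM j := by unfold MM; push_cast; linarith
    exact_mod_cast a7
  omega

theorem geo (J : ℕ) : ∑ j ∈ range (J + 1), (MM j : ℝ) ≤
    2 * 1.46987 * 4 * (4 / 3 : ℝ) ^ J + 3 * (J + 1) := by
  have h : ∀ j, (MM j : ℝ) ≤ 2 * 1.46987 * (4 / 3 : ℝ) ^ j + 3 := fun j => by
    have := Nat.floor_le (a := 2 * 1.46987 * (4 / 3 : ℝ) ^ j) (by positivity)
    unfold MM; push_cast; linarith
  induction J with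
  | zero => have := h 0; simp only [zero_add, range_one, sum_singleton]; norm_num at this ⊢; linarith
  | succ J ih =>
    rw [sum_range_succ, pow_succ]
    have := h (J + 1)
    rw [pow_succ] at this
    push_cast
    linarith

/-- An additive complement of the squares with at most `5.88 √N` elements up to `N`. -/
theorem result : ∃ A : Set ℕ, (∀ k : ℕ, ∃ a ∈ A, ∃ n : ℕ, k = a + n ^ 2) ∧
    ∃ N₀ : ℕ, ∀ N : ℕ, N₀ ≤ N → ((A ∩ Set.Icc 1 N).ncard : ℝ) ≤ 5.88 * Real.sqrt N := by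
  classical
  refine ⟨AA, cover, ?_⟩
  have ht : Tendsto (fun j : ℕ => (3 * ((j : ℝ) + 1) + 10) * (3 / 4 : ℝ) ^ j) atTop (𝓝 0) := by
    have a := (tendsto_self_mul_const_pow_of_lt_one (r := (3 / 4 : ℝ)) (by norm_num)
      (by norm_num)).const_mul 3
    have b := (tendsto_pow_atTop_nhds_zero_of_lt_one (r := (3 / 4 : ℝ)) (by norm_num)
      (by norm_num)).const_mul 13
    have c := a.add b
    simp only [mul_zero, add_zero] at c
    exact c.congr fun j => by ring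
  obtain ⟨J0, hJ0⟩ := eventually_atTop.1 (ht.eventually_le_const (show (0 : ℝ) < 0.001 by norm_num))
  refine ⟨xx J0, fun N hN => ?_⟩
  set J := Nat.findGreatest (fun j => xx j ≤ N) N with hJ
  have hle : ∀ j, xx j ≤ N → j ≤ J := fun j hj =>
    Nat.le_findGreatest (by have := xx_gt j; omega) hj
  have hJ1 : xx J ≤ N := Nat.findGreatest_spec (P := fun j => xx j ≤ N)
    (by have := xx_gt J0; omega : J0 ≤ N) hN
  have hsub : AA ∩ Set.Icc 1 N ⊆ ((range 10 ∪ (range (J + 1)).biUnion BB : Finset ℕ) : Set ℕ) := by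
    rintro a ⟨h | ⟨j, hj⟩, -, h2⟩
    · exact mem_coe.2 (mem_union_left _ (mem_range.2 h))
    · refine mem_coe.2 (mem_union_right _ (mem_biUnion.2 ⟨j, mem_range.2 ?_, hj⟩))
      obtain ⟨i, -, rfl⟩ := mem_image.1 hj
      have := hle j (by omega)
      omega
  have h1 := Set.ncard_le_ncard hsub (Finset.finite_toSet _)
  rw [Set.ncard_coe_finset] at h1
  have h2 : (range 10 ∪ (range (J + 1)).biUnion BB).card ≤ 10 + ∑ j ∈ range (J + 1), MM j := by
    refine (card_union_le _ _).trans (Nat.add_le_add (by simp) (card_biUnion_le.trans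
      (sum_le_sum fun j _ => ?_)))
    exact card_image_le.trans (by simp)
  have h3 : ((AA ∩ Set.Icc 1 N).ncard : ℝ) ≤ 10 + ∑ j ∈ range (J + 1), (MM j : ℝ) := by
    exact_mod_cast h1.trans h2
  have h4 := geo J
  have h5 : 2 * (4 / 3 : ℝ) ^ J ≤ Real.sqrt N := by
    refine Real.le_sqrt_of_sq_le ?_
    have := xx_ge J
    have : (xx J : ℝ) ≤ N := by exact_mod_cast hJ1
    nlinarith
  have h6 := hJ0 J (hle J0 hN)
  have h7 : (3 / 4 : ℝ) ^ J * (4 / 3 : ℝ) ^ J = 1 := by rw [← mul_pow]; norm_num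
  have h8 : (0 : ℝ) < (4 / 3 : ℝ) ^ J := by positivity
  have h9 : 3 * ((J : ℝ) + 1) + 10 ≤ 0.001 * (4 / 3 : ℝ) ^ J := by
    have := mul_le_mul_of_nonneg_right h6 h8.le
    rwa [mul_assoc, h7, mul_one] at this
  linarith

end Pool.Agent.Results.MP_a02313_nt.Upper
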